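import Mathlib
import Pool.Agent.Q248.TransV
import Pool.Agent.Q248.TransSum

/-!
# Growth of integer generating sets with a prescribed transition set (MP_7aef23)

We show that `θ(r, W) = 1` for all `r ≥ 2` and all nonempty finite sets `W` of positive integers,
and that the value `1` is attained: some `A ∈ 𝒜(r, W)` satisfies `A(t) ≫ t`.

Construction, with `h = r - 2`: choose a modulus `m` and a symmetric set `V ∋ 0` of residues such
that every residue is a sum of `h` elements of `V`, while no `w ∈ W` is congruent to a sum of fewer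
than `h` elements of `V`; take a lacunary sequence `S` with infinitely many terms in every class of
`V` (and no others), and add the set `D` of all multiples of `m` not of the form `± w - σ` with `σ`
a signed sum of at most `h` terms of `S`.
-/

namespace Pool.Agent.Results.MP_7aef23_nt.ThetaIsOne

open Finset

/-- `x` is a sum of `k` elements of `A ∪ (-A)`. -/
def IsSum (A : Set ℕ) (k : ℕ) (x : ℤ) : Prop :=
  ∃ l : List ℤ, l.length = k ∧ (∀ y ∈ l, ∃ a ∈ A, y = (a : ℤ) ∨ y = -(a : ℤ)) ∧ l.sum = x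

/-- `S_A(r)`: the integers of word length exactly `r`, i.e. those `x` for which `r` is the least `k`
such that `x` is a sum of `k` elements of `A ∪ (-A)`. -/
def sphere (A : Set ℕ) (r : ℕ) : Set ℤ := {x | IsLeast {k | IsSum A k x} r}

/-- `A` generates `ℤ`. -/
def Generates (A : Set ℕ) : Prop := ∀ x : ℤ, ∃ k, IsSum A k x

/-- The family `𝒜(r, W)`. -/
def family (r : ℕ) (W : Finset ℕ) : Set (Set ℕ) :=
  {A | (∀ a ∈ A, 0 < a) ∧ Generates A ∧
    sphere A r = {x : ℤ | ∃ w ∈ W, x = (w : ℤ) ∨ x = -(w : ℤ)}}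

/-- The counting function `A(t)`. -/
noncomputable def count (A : Set ℕ) (t : ℝ) : ℕ := Set.ncard {a : ℕ | a ∈ A ∧ (a : ℝ) ≤ t}

/-- `A(t) ≫ t ^ θ`. -/
def GrowsAtLeast (A : Set ℕ) (θ : ℝ) : Prop :=
  ∃ c : ℝ, 0 < c ∧ ∃ t₀ : ℝ, ∀ t : ℝ, t₀ ≤ t → c * t ^ θ ≤ (count A t : ℝ)

/-- `θ(r, W)`. -/
noncomputable def theta (r : ℕ) (W : Finset ℕ) : ℝ :=
  sSup {θ : ℝ | 0 < θ ∧ ∃ A ∈ family r W, GrowsAtLeast A θ}

theorem isSum_neg {A : Set ℕ} {k : ℕ} {x : ℤ} (h : IsSum A k x) : IsSum A k (-x) := by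
  obtain ⟨l, h1, h2, h3⟩ := h
  refine ⟨l.map (fun y => -y), by simpa using h1, ?_, ?_⟩
  · intro y hy
    obtain ⟨z, hz, rfl⟩ := List.mem_map.1 hy
    obtain ⟨a, ha, hza⟩ := h2 z hz
    refine ⟨a, ha, ?_⟩
    rcases hza with hza | hza
    · right; rw [hza]
    · left; rw [hza, neg_neg]
  · rw [← h3]
    clear h1 h2 h3
    induction l with
    | nil => simp
    | cons y l ih => rw [List.map_cons, List.sum_cons, List.sum_cons, ih]; ring

/-- Membership in the family from representation properties. -/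
theorem mem_family {A : Set ℕ} {h : ℕ} {W : Finset ℕ} (hpos : ∀ a ∈ A, 0 < a)
    (hinf : ∀ n : ℕ, ∃ a ∈ A, n < a)
    (h1 : ∀ x : ℤ, x ≠ 0 → (∀ w ∈ W, x ≠ (w : ℤ) ∧ x ≠ -(w : ℤ)) → IsSum A (h + 1) x)
    (h2 : ∀ w ∈ W, ∀ k ≤ h + 1, ¬ IsSum A k (w : ℤ)) : A ∈ family (h + 2) W := by
  have h0 : IsSum A 0 0 := ⟨[], rfl, by simp, by simp⟩
  have hw : ∀ w ∈ W, IsSum A (h + 2) (w : ℤ) := by
    intro w hwW
    obtain ⟨a, ha, hlt⟩ := hinf (w + W.sup id)
    have hneg : (w : ℤ) - a < 0 := by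
      have : (w : ℤ) < a := by exact_mod_cast (by omega : w < a)
      linarith
    obtain ⟨l, g1, g2, g3⟩ := h1 ((w : ℤ) - a) hneg.ne (by
      intro w' hw'
      have hle : w' ≤ W.sup id := le_sup (f := id) hw'
      constructor
      · intro h
        rw [h] at hneg
        exact absurd hneg (not_lt.2 (by positivity))
      · intro h
        have : (a : ℤ) = w + w' := by linarith
        have : a = w + w' := by exact_mod_cast this
        omega)
    refine ⟨(a : ℤ) :: l, by simp [g1], ?_, by rw [List.sum_cons, g3]; ring⟩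
    intro y hy
    rcases List.mem_cons.1 hy with rfl | hy
    · exact ⟨a, ha, Or.inl rfl⟩
    · exact g2 y hy
  refine ⟨hpos, ?_, ?_⟩
  · intro x
    by_cases hx0 : x = 0
    · exact ⟨0, by rw [hx0]; exact h0⟩
    · by_cases hx : ∀ w ∈ W, x ≠ (w : ℤ) ∧ x ≠ -(w : ℤ)
      · exact ⟨_, h1 x hx0 hx⟩
      · push Not at hx
        obtain ⟨w, hwW, hxw⟩ := hx
        by_cases h3 : x = w
        · exact ⟨_, by rw [h3]; exact hw w hwW⟩
        · exact ⟨_, by rw [hxw h3]; exact isSum_neg (hw w hwW)⟩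
  · ext x
    constructor
    · intro hx
      by_contra hcon
      have hcon' : ∀ w ∈ W, x ≠ (w : ℤ) ∧ x ≠ -(w : ℤ) := by
        intro w hwW
        constructor
        · intro h; exact hcon ⟨w, hwW, Or.inl h⟩
        · intro h; exact hcon ⟨w, hwW, Or.inr h⟩
      by_cases hx0 : x = 0
      · have := hx.2 (show (0 : ℕ) ∈ {k | IsSum A k x} by rw [hx0]; exact h0)
        omega
      · have := hx.2 (show h + 1 ∈ {k | IsSum A k x} from h1 x hx0 hcon')
        omega
    · rintro ⟨w, hwW, rfl | rfl⟩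
      · refine ⟨hw w hwW, ?_⟩
        intro k hk
        by_contra hlt
        exact h2 w hwW k (by omega) hk
      · refine ⟨isSum_neg (hw w hwW), ?_⟩
        intro k hk
        by_contra hlt
        refine h2 w hwW k (by omega) ?_
        have := isSum_neg hk
        rwa [neg_neg] at this

/-- The counting function is at most `t`. -/
theorem count_le {A : Set ℕ} (hpos : ∀ a ∈ A, 0 < a) {t : ℝ} (ht : 0 ≤ t) :
    (count A t : ℝ) ≤ t := by
  have h1 : count A t ≤ ⌊t⌋₊ := by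
    unfold count
    have hsub : {a : ℕ | a ∈ A ∧ (a : ℝ) ≤ t} ⊆ (Finset.Icc 1 ⌊t⌋₊ : Finset ℕ) := by
      rintro a ⟨ha, hat⟩
      rw [Finset.coe_Icc, Set.mem_Icc]
      exact ⟨hpos a ha, Nat.le_floor hat⟩
    have := Set.ncard_le_ncard hsub (Finset.finite_toSet _)
    rwa [Set.ncard_coe_finset, Nat.card_Icc, Nat.add_sub_cancel] at this
  calc (count A t : ℝ) ≤ ((⌊t⌋₊ : ℕ) : ℝ) := by exact_mod_cast h1
    _ ≤ t := Nat.floor_le ht

theorem theta_le {A : Set ℕ} (hpos : ∀ a ∈ A, 0 < a) {θ : ℝ} (h : GrowsAtLeast A θ) : θ ≤ 1 := by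
  obtain ⟨c, hc, t₀, ht⟩ := h
  by_contra hlt
  push Not at hlt
  have h1 := (tendsto_rpow_atTop (show (0 : ℝ) < θ - 1 by linarith)).eventually
    (Filter.eventually_gt_atTop (1 / c))
  obtain ⟨t, h2, h3, h4⟩ := (h1.and ((Filter.eventually_ge_atTop t₀).and
    (Filter.eventually_gt_atTop (0 : ℝ)))).exists
  have h5 := ht t h3
  have h6 := count_le hpos h4.le
  have h7 : t ^ θ = t ^ (θ - 1) * t := by
    rw [← Real.rpow_add_one h4.ne']; ring_nf
  rw [h7] at h5
  have h8 : 1 < c * t ^ (θ - 1) := by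
    rw [div_lt_iff₀ hc] at h2
    linarith [mul_comm c (t ^ (θ - 1))]
  nlinarith

section construction

variable {h m : ℕ} {V : Set (ZMod m)}

/-- Splitting a list of elements of `± (D ∪ S)`. -/
theorem split_list {D S : Set ℕ} (l : List ℤ)
    (hl : ∀ y ∈ l, ∃ a ∈ D ∪ S, y = (a : ℤ) ∨ y = -(a : ℤ)) :
    ∃ lD lS : List ℤ, (∀ y ∈ lD, ∃ a ∈ D, y = (a : ℤ) ∨ y = -(a : ℤ)) ∧
      (∀ y ∈ lS, ∃ a ∈ S, y = (a : ℤ) ∨ y = -(a : ℤ)) ∧ l.length = lD.length + lS.length ∧
      l.sum = lD.sum + lS.sum := by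
  induction l with
  | nil => exact ⟨[], [], by simp, by simp, rfl, by simp⟩
  | cons y l ih =>
    obtain ⟨lD, lS, g1, g2, g3, g4⟩ := ih (fun z hz => hl z (List.mem_cons_of_mem _ hz))
    obtain ⟨a, ha, hya⟩ := hl y List.mem_cons_self
    rcases ha with ha | ha
    · refine ⟨y :: lD, lS, ?_, g2, by simp [g3]; omega, by simp [g4]; ring⟩
      intro z hz
      rcases List.mem_cons.1 hz with rfl | hz
      · exact ⟨a, ha, hya⟩
      · exact g1 z hz
    · refine ⟨lD, y :: lS, g1, ?_, by simp [g3]; omega, by simp [g4]; ring⟩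
      intro z hz
      rcases List.mem_cons.1 hz with rfl | hz
      · exact ⟨a, ha, hya⟩
      · exact g2 z hz

theorem list_T {s : ℕ → ℤ} {S : Set ℕ} (hS : ∀ a ∈ S, ∃ k, s k = (a : ℤ)) (l : List ℤ)
    (hl : ∀ y ∈ l, ∃ a ∈ S, y = (a : ℤ) ∨ y = -(a : ℤ)) : l.sum ∈ Q248.Trans.T s l.length := by
  induction l with
  | nil => simpa using Q248.Trans.T_zero s 0
  | cons y l ih =>
    have h1 := ih (fun z hz => hl z (List.mem_cons_of_mem _ hz))
    obtain ⟨a, ha, hya⟩ := hl y List.mem_cons_self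
    obtain ⟨k, hk⟩ := hS a ha
    have h2 : y ∈ Q248.Trans.T s 1 := by
      rcases hya with rfl | rfl
      · rw [← hk]; exact Q248.Trans.T_single s k
      · rw [← hk]; exact Q248.Trans.T_neg (Q248.Trans.T_single s k)
    rw [List.sum_cons, List.length_cons, add_comm l.length 1]
    exact Q248.Trans.T_add h2 h1

theorem list_V {s : ℕ → ℤ} {S : Set ℕ} (hS : ∀ a ∈ S, ∃ k, s k = (a : ℤ))
    (hsV : ∀ k, ((s k : ℤ) : ZMod m) ∈ V) (hneg : ∀ v ∈ V, -v ∈ V) (l : List ℤ)
    (hl : ∀ y ∈ l, ∃ a ∈ S, y = (a : ℤ) ∨ y = -(a : ℤ)) :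
    ∃ l' : List (ZMod m), l'.length = l.length ∧ (∀ v ∈ l', v ∈ V) ∧
      l'.sum = ((l.sum : ℤ) : ZMod m) := by
  induction l with
  | nil => exact ⟨[], rfl, by simp, by simp⟩
  | cons y l ih =>
    obtain ⟨l', g1, g2, g3⟩ := ih (fun z hz => hl z (List.mem_cons_of_mem _ hz))
    obtain ⟨a, ha, hya⟩ := hl y List.mem_cons_self
    obtain ⟨k, hk⟩ := hS a ha
    refine ⟨((y : ℤ) : ZMod m) :: l', by simp [g1], ?_, by simp [g3]⟩
    intro v hv
    rcases List.mem_cons.1 hv with rfl | hv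
    · rcases hya with rfl | rfl
      · rw [← hk]; exact hsV k
      · rw [← hk, Int.cast_neg]; exact hneg _ (hsV k)
    · exact g2 v hv

theorem exists_indices {s : ℕ → ℤ} (hclass : ∀ v ∈ V, ∀ n : ℕ, ∃ k, n ≤ k ∧ ((s k : ℤ) : ZMod m) = v)
    (k0 : ℕ) (l : List (ZMod m)) (hl : ∀ v ∈ l, v ∈ V) :
    ∃ Ks : Finset ℕ, Ks.card = l.length ∧ (∀ k ∈ Ks, k0 ≤ k) ∧
      ((∑ k ∈ Ks, s k : ℤ) : ZMod m) = l.sum := by
  induction l with
  | nil => exact ⟨∅, rfl, by simp, by simp⟩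
  | cons v l ih =>
    obtain ⟨Ks, g1, g2, g3⟩ := ih (fun z hz => hl z (List.mem_cons_of_mem _ hz))
    obtain ⟨k, hk, hkv⟩ := hclass v (hl v List.mem_cons_self) (k0 + Ks.sup id + 1)
    have hnot : k ∉ Ks := by
      intro hmem
      have : k ≤ Ks.sup id := le_sup (f := id) hmem
      omega
    refine ⟨insert k Ks, by rw [card_insert_of_notMem hnot, g1, List.length_cons], ?_, ?_⟩
    · intro j hj
      rcases mem_insert.1 hj with rfl | hj
      · omega
      · exact g2 j hj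
    · rw [sum_insert hnot, Int.cast_add, hkv, g3, List.sum_cons]

/-- The set `D`. -/
def Dset (m h : ℕ) (s : ℕ → ℤ) (W : Finset ℕ) : Set ℕ :=
  {d | 0 < d ∧ m ∣ d ∧ ∀ w ∈ W, ∀ σ ∈ Q248.Trans.T s h, (d : ℤ) ≠ w - σ ∧ (d : ℤ) ≠ -w - σ}

/-- The set `S`. -/
def Sset (s : ℕ → ℤ) : Set ℕ := {a | ∃ k, s k = (a : ℤ)}

theorem rep_w {s : ℕ → ℤ} {W : Finset ℕ} {M : ℕ} (hM : ∀ w ∈ W, w ≤ M) (hW : ∀ w ∈ W, 0 < w)
    (hpos : ∀ k, 0 < s k) (hgrow : ∀ j k, j < k → 4 * ((h : ℤ) + 1) * s j ≤ s k)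
    (hs0 : 2 * (M : ℤ) < s 0) (hsV : ∀ k, ((s k : ℤ) : ZMod m) ∈ V) (hneg : ∀ v ∈ V, -v ∈ V)
    (hVW : ∀ w ∈ W, ∀ l : List (ZMod m), l.length < h → (∀ v ∈ l, v ∈ V) → l.sum ≠ (w : ZMod m)) :
    ∀ w ∈ W, ∀ k ≤ h + 1, ¬ IsSum (Dset m h s W ∪ Sset s) k (w : ℤ) := by
  rintro w hw k hk ⟨l, hl1, hl2, hl3⟩
  obtain ⟨lD, lS, g1, g2, g3, g4⟩ := split_list l hl2
  have hT := list_T (s := s) (S := Sset s) (fun a ha => ha) lS g2
  have hwpos := hW w hw
  have hwM := hM w hw
  match lD, g1, g3, g4 with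
  | [], _, g3, g4 =>
    -- no term from `D`
    rw [List.sum_nil, zero_add, hl3] at g4
    obtain ⟨U, c, c1, c2, c3⟩ := hT
    have hlen : (lS.length : ℤ) ≤ h + 1 := by
      have : lS.length ≤ h + 1 := by simp at g3; omega
      exact_mod_cast this
    have h0 := Q248.Trans.coeff_zero hpos hgrow U c (by linarith) 0 (by
      rw [← c3, ← g4, abs_of_nonneg (by positivity)]
      have : (w : ℤ) ≤ M := by exact_mod_cast hwM
      linarith)
    have : (w : ℤ) = 0 := by
      rw [g4, c3]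
      apply sum_eq_zero
      intro k hk
      rw [h0 k hk (Nat.zero_le _), zero_mul]
    have : w = 0 := by exact_mod_cast this
    omega
  | [y], g1, g3, g4 =>
    obtain ⟨d, hd, hyd⟩ := g1 y (by simp)
    rw [List.sum_singleton, hl3] at g4
    have hlen : lS.length ≤ h := by simp at g3; omega
    have hT' := Q248.Trans.T_mono hlen hT
    rcases hyd with rfl | rfl
    · exact (hd.2.2 w hw _ hT').1 (by linarith)
    · exact (hd.2.2 w hw _ (Q248.Trans.T_neg hT')).2 (by linarith)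
  | y1 :: y2 :: rest, g1, g3, g4 =>
    have hdvd : (m : ℤ) ∣ (y1 :: y2 :: rest).sum := by
      apply List.dvd_sum
      intro y hy
      obtain ⟨d, hd, hyd⟩ := g1 y hy
      have h1 : (m : ℤ) ∣ (d : ℤ) := by exact_mod_cast hd.2.1
      rcases hyd with rfl | rfl
      · exact h1
      · exact h1.neg_right
    obtain ⟨l', q1, q2, q3⟩ := list_V (S := Sset s) (fun a ha => ha) hsV hneg lS g2
    apply hVW w hw l' (by simp at g3; omega) q2
    rw [q3]
    have h2 : ((((y1 :: y2 :: rest).sum : ℤ)) : ZMod m) = 0 :=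
      (ZMod.intCast_zmod_eq_zero_iff_dvd _ _).2 hdvd
    have h3 := congrArg (fun z : ℤ => (z : ZMod m)) g4
    simp only [Int.cast_add] at h3
    rw [h2, zero_add, hl3] at h3
    rw [← h3]
    simp

theorem rep_x {s : ℕ → ℤ} {W : Finset ℕ} {M : ℕ} (hM : ∀ w ∈ W, w ≤ M)
    (hpos : ∀ k, 0 < s k) (hgrow : ∀ j k, j < k → 4 * ((h : ℤ) + 1) * s j ≤ s k)
    (hlarge : ∀ k : ℕ, (k : ℤ) < s k)
    (hclass : ∀ v ∈ V, ∀ n : ℕ, ∃ k, n ≤ k ∧ ((s k : ℤ) : ZMod m) = v)
    (hVh : ∀ x : ZMod m, ∃ l : List (ZMod m), l.length = h ∧ (∀ v ∈ l, v ∈ V) ∧ l.sum = x) :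
    ∀ x : ℤ, x ≠ 0 → (∀ w ∈ W, x ≠ (w : ℤ) ∧ x ≠ -(w : ℤ)) →
      IsSum (Dset m h s W ∪ Sset s) (h + 1) x := by
  intro x hx0 hxW
  obtain ⟨k0, hk0⟩ : ∃ k0 : ℕ, 2 * (|x| + M) < s k0 := by
    refine ⟨2 * (x.natAbs + M), ?_⟩
    have := hlarge (2 * (x.natAbs + M))
    push_cast at this
    simpa [Int.natCast_natAbs] using this
  obtain ⟨l, l1, l2, l3⟩ := hVh (x : ZMod m)
  obtain ⟨Ks, q1, q2, q3⟩ := exists_indices hclass k0 l l2
  set σ : ℤ := ∑ k ∈ Ks, s k with hσ
  have hcard : Ks.card = h := by rw [q1, l1]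
  -- the term in `D`
  have hne : σ - x ≠ 0 := by
    intro hzero
    rcases Finset.eq_empty_or_nonempty Ks with hemp | ⟨k, hk⟩
    · rw [hσ, hemp, sum_empty] at hzero
      exact hx0 (by linarith)
    · have h1 : s k ≤ σ := single_le_sum (fun j _ => (hpos j).le) hk
      have h2 : s k0 ≤ s k := by
        rcases (q2 k hk).eq_or_lt with h3 | h3
        · rw [h3]
        · have := hgrow k0 k h3
          have h4 := hpos k0
          nlinarith
      have h3 := le_abs_self x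
      have h4 : (0 : ℤ) ≤ M := by positivity
      have h5 := abs_nonneg x
      linarith
  have hkey : ∀ w ∈ W, ∀ σ' ∈ Q248.Trans.T s h, ∀ ε : ℤ, (ε = 1 ∨ ε = -1) →
      σ - x + σ' ≠ ε * w := by
    intro w hw σ' hσ' ε hε heq
    have hw1 : (w : ℤ) ≤ M := by exact_mod_cast hM w hw
    have hw2 : (0 : ℤ) ≤ w := by positivity
    have habs : |σ + σ'| ≤ |x| + M := by
      have : σ + σ' = x + ε * w := by linarith
      rw [this]
      refine (abs_add_le _ _).trans ?_
      have : |ε * (w : ℤ)| ≤ M := by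
        rcases hε with rfl | rfl
        · rw [one_mul, abs_of_nonneg hw2]; exact hw1
        · rw [neg_one_mul, abs_neg, abs_of_nonneg hw2]; exact hw1
      linarith
    have hz := Q248.Trans.rigid hpos hgrow Ks hcard k0 q2 hσ' (by
      rw [← hσ]; linarith)
    rw [← hσ] at hz
    have hx : x = -(ε * w) := by linarith
    rcases hε with rfl | rfl
    · exact (hxW w hw).2 (by linarith)
    · exact (hxW w hw).1 (by linarith)
  have hmd : (m : ℤ) ∣ σ - x := by
    rw [← ZMod.intCast_zmod_eq_zero_iff_dvd, Int.cast_sub, q3, l3, sub_self]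
  have hD : (σ - x).natAbs ∈ Dset m h s W := by
    refine ⟨Int.natAbs_pos.2 hne, Int.natCast_dvd.1 hmd, ?_⟩
    intro w hw σ' hσ'
    rw [Int.natCast_natAbs]
    rcases abs_choice (σ - x) with habs | habs
    · rw [habs]
      constructor
      · intro heq
        exact hkey w hw σ' hσ' 1 (Or.inl rfl) (by linarith)
      · intro heq
        exact hkey w hw σ' hσ' (-1) (Or.inr rfl) (by linarith)
    · rw [habs]
      constructor
      · intro heq
        exact hkey w hw _ (Q248.Trans.T_neg hσ') (-1) (Or.inr rfl) (by linarith)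
      · intro heq
        exact hkey w hw _ (Q248.Trans.T_neg hσ') 1 (Or.inl rfl) (by linarith)
  -- the list of the terms from `S`
  have hlist : ∀ Ks : Finset ℕ, ∃ L : List ℤ, L.length = Ks.card ∧
      (∀ y ∈ L, ∃ a ∈ Dset m h s W ∪ Sset s, y = (a : ℤ) ∨ y = -(a : ℤ)) ∧
      L.sum = ∑ k ∈ Ks, s k := by
    intro Ks
    refine ⟨Ks.toList.map s, by simp, ?_, by rw [Finset.sum_map_toList]⟩
    intro y hy
    obtain ⟨k, _, rfl⟩ := List.mem_map.1 hy
    refine ⟨(s k).toNat, Or.inr ⟨k, ?_⟩, Or.inl ?_⟩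
    · rw [Int.toNat_of_nonneg (hpos k).le]
    · rw [Int.toNat_of_nonneg (hpos k).le]
  obtain ⟨L, L1, L2, L3⟩ := hlist Ks
  refine ⟨(x - σ) :: L, by rw [List.length_cons, L1, hcard], ?_, ?_⟩
  · intro y hy
    rcases List.mem_cons.1 hy with rfl | hy
    · refine ⟨(σ - x).natAbs, Or.inl hD, ?_⟩
      rw [Int.natCast_natAbs]
      rcases abs_choice (σ - x) with habs | habs
      · right; rw [habs]; ring
      · left; rw [habs]; ring
    · exact L2 y hy
  · rw [List.sum_cons, L3]; ring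

end construction

/-- The main construction. -/
theorem exists_dense (h : ℕ) (W : Finset ℕ) (hW : ∀ w ∈ W, 0 < w) :
    ∃ A ∈ family (h + 2) W, GrowsAtLeast A 1 := by
  classical
  obtain ⟨m, hm, V, hV0, hVneg, hVh, hVW⟩ := Q248.Trans.exists_V h W hW
  obtain ⟨M, hM⟩ : ∃ M : ℕ, ∀ w ∈ W, w ≤ M := ⟨W.sup id, fun w hw => le_sup (f := id) hw⟩
  have hNZ : NeZero m := ⟨hm.ne'⟩
  obtain ⟨Q', hQ'⟩ : ∃ Q', Q' = (M + 2) * (h + 2) := ⟨_, rfl⟩
  obtain ⟨Q, hQ⟩ : ∃ Q, Q = 16 * Q' := ⟨_, rfl⟩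
  have hQ'1 : M + 2 ≤ Q' := by rw [hQ']; exact Nat.le_mul_of_pos_right _ (by omega)
  have hQ'2 : h + 2 ≤ Q' := by rw [hQ']; exact Nat.le_mul_of_pos_left _ (by omega)
  set g : ℕ → ZMod m := fun n => if (n : ZMod m) ∈ V then (n : ZMod m) else 0 with hg
  have hgV : ∀ n, g n ∈ V := by
    intro n
    rw [hg]
    dsimp only
    split_ifs with h1
    · exact h1
    · exact hV0
  set s : ℕ → ℤ := fun n => ((m * Q ^ (n + 1) + (g n).val : ℕ) : ℤ) with hs
  have hsval : ∀ n, s n = ((m * Q ^ (n + 1) + (g n).val : ℕ) : ℤ) := fun n => rfl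
  have hQpos : 0 < Q := by omega
  have hslow : ∀ n, ((m * Q ^ (n + 1) : ℕ) : ℤ) ≤ s n := by
    intro n
    rw [hsval]
    exact_mod_cast Nat.le_add_right _ _
  have hsup : ∀ n, s n ≤ ((m * Q ^ (n + 1) + m : ℕ) : ℤ) := by
    intro n
    rw [hsval]
    have := (ZMod.val_lt (g n)).le
    exact_mod_cast Nat.add_le_add_left this _
  have hXpos : ∀ n, m ≤ m * Q ^ (n + 1) := fun n => Nat.le_mul_of_pos_right _ (by positivity)
  have hpos : ∀ k, 0 < s k := by
    intro k
    refine lt_of_lt_of_le ?_ (hslow k)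
    have : 0 < m * Q ^ (k + 1) := by positivity
    exact_mod_cast this
  have hgrow : ∀ j k, j < k → 4 * ((h : ℤ) + 1) * s j ≤ s k := by
    intro j k hjk
    refine le_trans ?_ (hslow k)
    have h1 : s j ≤ ((2 * (m * Q ^ (j + 1)) : ℕ) : ℤ) := by
      refine (hsup j).trans ?_
      have := hXpos j
      exact_mod_cast (by omega : m * Q ^ (j + 1) + m ≤ 2 * (m * Q ^ (j + 1)))
    have h2 : Q ^ (j + 2) ≤ Q ^ (k + 1) := Nat.pow_le_pow_right hQpos (by omega)
    have h3 : 8 * (h + 1) * (m * Q ^ (j + 1)) ≤ m * Q ^ (k + 1) := by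
      calc 8 * (h + 1) * (m * Q ^ (j + 1)) ≤ Q * (m * Q ^ (j + 1)) := by
            apply Nat.mul_le_mul_right
            omega
        _ = m * Q ^ (j + 2) := by ring
        _ ≤ m * Q ^ (k + 1) := Nat.mul_le_mul_left _ h2
    calc 4 * ((h : ℤ) + 1) * s j ≤ 4 * ((h : ℤ) + 1) * ((2 * (m * Q ^ (j + 1)) : ℕ) : ℤ) := by
          gcongr
      _ = ((8 * (h + 1) * (m * Q ^ (j + 1)) : ℕ) : ℤ) := by push_cast; ring
      _ ≤ ((m * Q ^ (k + 1) : ℕ) : ℤ) := by exact_mod_cast h3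
  have hs0 : 2 * (M : ℤ) < s 0 := by
    refine lt_of_lt_of_le ?_ (hslow 0)
    have h1 : 2 * M < m * Q ^ (0 + 1) := by
      have : Q ≤ m * Q ^ (0 + 1) := by
        rw [zero_add, pow_one]; exact Nat.le_mul_of_pos_left _ hm
      omega
    exact_mod_cast h1
  have hlarge : ∀ k : ℕ, (k : ℤ) < s k := by
    intro k
    refine lt_of_lt_of_le ?_ (hslow k)
    have h1 : k < Q ^ (k + 1) := by
      have h2 : k < 2 ^ k := Nat.lt_two_pow_self
      have h3 : 2 ^ k ≤ Q ^ k := Nat.pow_le_pow_left (by omega) k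
      have h4 : Q ^ k ≤ Q ^ (k + 1) := Nat.pow_le_pow_right hQpos (by omega)
      omega
    have h2 : Q ^ (k + 1) ≤ m * Q ^ (k + 1) := Nat.le_mul_of_pos_left _ hm
    exact_mod_cast (by omega : k < m * Q ^ (k + 1))
  have hscast : ∀ k, ((s k : ℤ) : ZMod m) = g k := by
    intro k
    rw [hsval]
    push_cast
    simp
  have hsV : ∀ k, ((s k : ℤ) : ZMod m) ∈ V := fun k => by rw [hscast]; exact hgV k
  have hclass : ∀ v ∈ V, ∀ n : ℕ, ∃ k, n ≤ k ∧ ((s k : ℤ) : ZMod m) = v := by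
    intro v hv n
    refine ⟨m * n + v.val, ?_, ?_⟩
    · have : n ≤ m * n := Nat.le_mul_of_pos_left _ hm
      omega
    · rw [hscast, hg]
      dsimp only
      have h1 : ((m * n + v.val : ℕ) : ZMod m) = v := by push_cast; simp
      rw [h1, if_pos hv]
  -- elements of `D`
  have hDmem : ∀ K j : ℕ, 6 * (Q' * Q ^ K) ≤ j → j < 7 * (Q' * Q ^ K) →
      m * j ∈ Dset m h s W := by
    intro K j hj1 hj2
    have hX : m * Q ^ (K + 1) = 16 * (m * (Q' * Q ^ K)) := by rw [hQ]; ring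
    set Y := m * (Q' * Q ^ K) with hY
    have hY1 : 6 * Y ≤ m * j := by
      calc 6 * Y = m * (6 * (Q' * Q ^ K)) := by rw [hY]; ring
        _ ≤ m * j := Nat.mul_le_mul_left _ hj1
    have hY2 : m * j < 7 * Y := by
      calc m * j < m * (7 * (Q' * Q ^ K)) := Nat.mul_lt_mul_of_pos_left hj2 hm
        _ = 7 * Y := by rw [hY]; ring
    have hYm : m ≤ Y := by
      rw [hY]
      apply Nat.le_mul_of_pos_right
      have h1 : 0 < Q' := by omega
      have h2 : 0 < Q ^ K := by positivity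
      exact Nat.mul_pos h1 h2
    have hYM : M + 2 ≤ Y := by
      have h1 : Q' ≤ Q' * Q ^ K := Nat.le_mul_of_pos_right _ (by positivity)
      have h2 : Q' * Q ^ K ≤ Y := by rw [hY]; exact Nat.le_mul_of_pos_left _ hm
      omega
    refine ⟨by omega, dvd_mul_right _ _, ?_⟩
    have haux : ∀ w ∈ W, ∀ σ ∈ Q248.Trans.T s h, |σ| ≤ ((m * j : ℕ) : ℤ) + w →
        ((m * j : ℕ) : ℤ) ≤ |σ| + w → False := by
      intro w hw σ hσ h1 h2
      have hwM : (w : ℤ) ≤ M := by exact_mod_cast hM w hw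
      have e1 : ((m * j : ℕ) : ℤ) < 7 * (Y : ℤ) := by exact_mod_cast hY2
      have e2 : 6 * (Y : ℤ) ≤ ((m * j : ℕ) : ℤ) := by exact_mod_cast hY1
      have e3 : (M : ℤ) + 2 ≤ Y := by exact_mod_cast hYM
      have e4 : (m : ℤ) ≤ Y := by exact_mod_cast hYm
      have e5 : 16 * (Y : ℤ) ≤ s K := by
        have := hslow K
        rw [hX] at this
        exact_mod_cast this
      have e6 : s K ≤ 16 * (Y : ℤ) + m := by
        have := hsup K
        rw [hX] at this
        exact_mod_cast this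
      have h3 := Q248.Trans.small_of_small hpos hgrow hσ K (by linarith)
      linarith
    intro w hw σ hσ
    have hw0 : (0 : ℤ) ≤ w := by positivity
    constructor
    · intro heq
      apply haux w hw σ hσ
      · have hσe : σ = w - ((m * j : ℕ) : ℤ) := by linarith
        rw [hσe, abs_le]
        constructor
        · linarith
        · have : (0 : ℤ) ≤ ((m * j : ℕ) : ℤ) := by positivity
          linarith
      · have := neg_le_abs σ
        linarith
    · intro heq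
      apply haux w hw σ hσ
      · have hσe : σ = -w - ((m * j : ℕ) : ℤ) := by linarith
        rw [hσe, abs_le]
        constructor
        · linarith
        · have : (0 : ℤ) ≤ ((m * j : ℕ) : ℤ) := by positivity
          linarith
      · have := neg_le_abs σ
        linarith
  refine ⟨Dset m h s W ∪ Sset s, mem_family ?_ ?_ (rep_x hM hpos hgrow hlarge hclass hVh)
    (rep_w hM hW hpos hgrow hs0 hsV hVneg hVW), ?_⟩
  · rintro a (ha | ⟨k, hk⟩)
    · exact ha.1
    · have := hpos k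
      rw [hk] at this
      exact_mod_cast this
  · intro n
    refine ⟨(s n).toNat, Or.inr ⟨n, (Int.toNat_of_nonneg (hpos n).le).symm⟩, ?_⟩
    have := hlarge n
    omega
  · -- the density
    refine ⟨1 / (7 * m * Q ^ 2), by positivity, ((7 * m * Q : ℕ) : ℝ), ?_⟩
    intro t ht
    rw [Real.rpow_one]
    have htpos : 0 < t := by
      refine lt_of_lt_of_le ?_ ht
      have : 0 < 7 * m * Q := by positivity
      exact_mod_cast this
    -- choose `K` with `7 m Q' Q ^ K ≤ t`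
    obtain ⟨n, hn⟩ : ∃ n, n = ⌊t⌋₊ := ⟨_, rfl⟩
    have hnt : (n : ℝ) ≤ t := by rw [hn]; exact Nat.floor_le htpos.le
    have htn : t < n + 1 := by rw [hn]; exact Nat.lt_floor_add_one t
    have hn0 : 7 * m * Q ≤ n := by rw [hn]; exact Nat.le_floor ht
    obtain ⟨K, hK⟩ : ∃ K, K = Nat.log Q (n / (7 * m * Q)) := ⟨_, rfl⟩
    have hQ1 : 1 < Q := by omega
    have hdivpos : n / (7 * m * Q) ≠ 0 := by
      rw [Nat.div_ne_zero_iff]
      exact ⟨by positivity, hn0⟩
    have hK1 : Q ^ K ≤ n / (7 * m * Q) := by rw [hK]; exact Nat.pow_log_le_self Q hdivpos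
    have hK2 : n / (7 * m * Q) < Q ^ (K + 1) := by rw [hK]; exact Nat.lt_pow_succ_log_self hQ1 _
    have hK3 : 7 * m * Q * Q ^ K ≤ n := by
      have := Nat.mul_le_mul_left (7 * m * Q) hK1
      exact this.trans (Nat.mul_div_le _ _)
    have hK4 : n < 7 * m * Q * Q ^ (K + 1) := by
      rw [Nat.div_lt_iff_lt_mul (by positivity)] at hK2
      linarith [mul_comm (7 * m * Q) (Q ^ (K + 1))]
    have hcount : Q' * Q ^ K ≤ count (Dset m h s W ∪ Sset s) t := by
      unfold count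
      have hfin : {a : ℕ | a ∈ Dset m h s W ∪ Sset s ∧ (a : ℝ) ≤ t}.Finite := by
        apply (Set.finite_Iic n).subset
        rintro a ⟨_, hat⟩
        rw [Set.mem_Iic, hn]
        exact Nat.le_floor hat
      have hsub : ((Finset.Ico (6 * (Q' * Q ^ K)) (7 * (Q' * Q ^ K))).image (fun j => m * j) :
          Set ℕ) ⊆ {a : ℕ | a ∈ Dset m h s W ∪ Sset s ∧ (a : ℝ) ≤ t} := by
        intro a ha
        rw [Finset.coe_image] at ha
        obtain ⟨j, hj, rfl⟩ := ha
        rw [Finset.mem_coe, Finset.mem_Ico] at hj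
        refine ⟨Or.inl (hDmem K j hj.1 hj.2), le_trans ?_ hnt⟩
        have h1 : m * j ≤ n := by
          refine le_trans ?_ hK3
          calc m * j ≤ m * (7 * (Q' * Q ^ K)) := Nat.mul_le_mul_left _ hj.2.le
            _ ≤ m * (7 * (Q * Q ^ K)) := by
                apply Nat.mul_le_mul_left
                apply Nat.mul_le_mul_left
                apply Nat.mul_le_mul_right
                omega
            _ = 7 * m * Q * Q ^ K := by ring
        exact_mod_cast h1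
      have h1 := Set.ncard_le_ncard hsub hfin
      rw [Set.ncard_coe_finset, Finset.card_image_of_injective _
        (fun a b hab => Nat.eq_of_mul_eq_mul_left hm hab), Nat.card_Ico] at h1
      refine le_trans ?_ h1
      omega
    have h2 : (t : ℝ) ≤ 7 * m * Q ^ 2 * (Q' * Q ^ K : ℕ) := by
      have h3 : n + 1 ≤ 7 * m * Q * Q ^ (K + 1) := hK4
      have h4 : 7 * m * Q * Q ^ (K + 1) ≤ 7 * m * Q ^ 2 * (Q' * Q ^ K) := by
        calc 7 * m * Q * Q ^ (K + 1) = 7 * m * Q ^ 2 * (1 * Q ^ K) := by ring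
          _ ≤ _ := by
            apply Nat.mul_le_mul_left
            apply Nat.mul_le_mul_right
            omega
      have h5 : ((n + 1 : ℕ) : ℝ) ≤ ((7 * m * Q ^ 2 * (Q' * Q ^ K) : ℕ) : ℝ) := by
        exact_mod_cast h3.trans h4
      push_cast at h5 ⊢
      linarith
    have h6 : (0 : ℝ) < 7 * m * Q ^ 2 := by positivity
    calc 1 / (7 * (m : ℝ) * (Q : ℝ) ^ 2) * t ≤ (Q' * Q ^ K : ℕ) := by
          rw [one_div, inv_mul_le_iff₀ h6]
          exact h2
      _ ≤ _ := by exact_mod_cast hcount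

/-- `θ(r, W) = 1` always, and the growth rate `t` is attained. -/
theorem result : ∀ r : ℕ, 2 ≤ r → ∀ W : Finset ℕ, W.Nonempty → (∀ w ∈ W, 0 < w) →
    theta r W = 1 ∧ ∃ A ∈ family r W, GrowsAtLeast A 1 := by
  intro r hr W _ hW
  obtain ⟨h, rfl⟩ : ∃ h, r = h + 2 := ⟨r - 2, by omega⟩
  have h1 := exists_dense h W hW
  refine ⟨?_, h1⟩
  have hgr : IsGreatest {θ : ℝ | 0 < θ ∧ ∃ A ∈ family (h + 2) W, GrowsAtLeast A θ} 1 := by
    refine ⟨⟨one_pos, h1⟩, ?_⟩
    rintro θ ⟨_, A, hA, hθ⟩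
    exact theta_le hA.1 hθ
  exact hgr.csSup_eq

end Pool.Agent.Results.MP_7aef23_nt.ThetaIsOne
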